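import Mathlib

/-!
Fractional Gaussian noise, general even kernels: definitions.
-/

set_option autoImplicit false

namespace Pool.Agent.K4H25.FH

open Finset

/-- autocovariance of the unit increments of fractional Brownian motion -/
noncomputable def gam (H : ℝ) (j : ℤ) : ℝ :=
  (|(j : ℝ) + 1| ^ (2 * H) - 2 * |(j : ℝ)| ^ (2 * H) + |(j : ℝ) - 1| ^ (2 * H)) / 2

/-- autocovariance of the differences -/
noncomputable def dlt (H : ℝ) (j : ℤ) : ℝ := 2 * gam H j - gam H (j + 1) - gam H (j - 1)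

/-- the decrements -/
noncomputable def phi (H : ℝ) (n : ℕ) : ℝ := gam H n - gam H (n + 1)

/-- Toeplitz matrix of a kernel -/
def Sg (g : ℤ → ℝ) (M : ℕ) : Matrix (Fin M) (Fin M) ℝ :=
  Matrix.of fun i j => g (((i : ℕ) : ℤ) - ((j : ℕ) : ℤ))

/-- shifted Toeplitz matrix -/
def Sh (g : ℤ → ℝ) (M k : ℕ) : Matrix (Fin M) (Fin M) ℝ :=
  Matrix.of fun i j => g (((i : ℕ) : ℤ) - ((j : ℕ) : ℤ) + (k : ℤ))

/-- M-matrix kernels -/
structure MT (g : ℤ → ℝ) (t : ℕ → ℝ) (C : ℝ) : Prop where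
  nonpos : ∀ j : ℤ, j ≠ 0 → g j ≤ 0
  pos : ∀ n, 0 < t n
  row : ∀ i n : ℕ, ∑ m ∈ range (i + n + 1), g ((i : ℤ) - (m : ℤ)) = t i + t n
  key : ∀ n : ℕ, ((n : ℝ) + 1) * (- g ((n : ℤ) + 1)) ≤ C * t n

end Pool.Agent.K4H25.FH
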