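import Pool.Agent.K4H25.FH.Red2

/-!
Reduction to the differences: combination.
-/

set_option autoImplicit false

namespace Pool.Agent.K4H25.FH

open Finset Matrix

theorem comb {H C : ℝ} (hC : 0 ≤ C) (hpd : ∀ N, (Sg (gam H) N).PosDef)
    (hct : ∀ (N k : ℕ) (a b : Fin N → ℝ), 0 ≤ a ⬝ᵥ Sg (gam H) N *ᵥ a +
      2 * (a ⬝ᵥ Sh (gam H) N k *ᵥ b) + b ⬝ᵥ Sg (gam H) N *ᵥ b)
    (hU : ∀ n, IsUnit (Sg (dlt H) n))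
    (ht1 : ∀ n k : ℕ, 1 ≤ k → -C ≤ ((Sg (dlt H) n)⁻¹ * Sh (dlt H) n k).trace ∧
      ((Sg (dlt H) n)⁻¹ * Sh (dlt H) n k).trace ≤ 0)
    (ht2 : ∀ n k l : ℕ, 1 ≤ k → 1 ≤ l → -(2 * C) ≤ ((Sg (dlt H) n)⁻¹ * Sh (dlt H) n k *
      ((Sg (dlt H) n)⁻¹ * Sh (dlt H) n l)).trace ∧ ((Sg (dlt H) n)⁻¹ * Sh (dlt H) n k *
      ((Sg (dlt H) n)⁻¹ * Sh (dlt H) n l)).trace ≤ C)
    {N k l : ℕ} (hN : 1 ≤ N) (hk : 1 ≤ k) (hl : 1 ≤ l) :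
    |((Sg (gam H) N)⁻¹ * Sh (gam H) N k).trace| ≤ C + 1 ∧
    |((Sg (gam H) N)⁻¹ * Sh (gam H) N k * ((Sg (gam H) N)⁻¹ * Sh (gam H) N l)).trace| ≤
      2 * C + 3 := by
  obtain ⟨n, rfl⟩ : ∃ n, N = n + 1 := ⟨N - 1, by omega⟩
  have hZ : (Dl n)ᵀ * Sg (gam H) (n + 1) * Dl n = Sg (dlt H) n := by
    rw [Sg_eq_Sh, Sg_eq_Sh, Dl_Sh]
  have h := red (hpd (n + 1)) (by rw [hZ]; exact hU n) (hct (n + 1) k) (hct (n + 1) l)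
  rw [hZ, Dl_Sh, Dl_Sh] at h
  obtain ⟨h1, h2⟩ := h
  obtain ⟨h3, h4⟩ := ht1 n k hk
  obtain ⟨h5, h6⟩ := ht2 n k l hk hl
  rw [abs_le] at h1 h2 ⊢
  rw [abs_le]
  refine ⟨⟨?_, ?_⟩, ?_, ?_⟩ <;> linarith [h1.1, h1.2, h2.1, h2.2]

end Pool.Agent.K4H25.FH
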