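import Pool.Agent.K4H25.FH.Comb
import Pool.Agent.K4H30.FN.Abs
import Pool.Agent.K4H30.FN.Trace
import Pool.Agent.K4H61.FHKey
import Pool.Agent.K4H77.FHPhi
import Pool.Agent.K4H32.FA.FHPsd

/-!
Fractional Gaussian noise with Hurst parameter greater than one half: the trace bounds.
-/

set_option autoImplicit false

namespace Pool.Agent.K4H25.FH

open Finset Matrix

theorem good {H : ℝ} (h : 1 / 2 < H) (h1 : H < 1) :
    Pool.Agent.K4H30.FNA.Good (dlt H) (phi H) 3 where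
  nonpos := fun _ hj => dlt_nonpos h h1 hj
  pos := phi_pos h h1
  row := row
  key := Pool.Agent.K4H61.FH.key h h1

theorem large {H : ℝ} (h : 1 / 2 < H) (h1 : H < 1) {N k l : ℕ} (hN : 1 ≤ N) (hk : 1 ≤ k)
    (hl : 1 ≤ l) :
    IsUnit (Sg (gam H) N) ∧
    |((Sg (gam H) N)⁻¹ * Sh (gam H) N k).trace| ≤ 4 ∧
    |((Sg (gam H) N)⁻¹ * Sh (gam H) N k * ((Sg (gam H) N)⁻¹ * Sh (gam H) N l)).trace| ≤ 9 := by
  have hg := good h h1
  have hpd : ∀ N, (Sg (gam H) N).PosDef :=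
    fun N => posDef (fun hj => dlt_nonpos h h1 hj) (phi_pos h h1) (gam_nonneg h h1)
      (dlt_one_neg h h1) N
  have hct := fun (N k : ℕ) (a b : Fin N → ℝ) =>
    contr (fun hj => dlt_nonpos h h1 hj) (phi_pos h h1) (gam_nonneg h h1) N k a b
  have := comb (C := 3) (by norm_num) hpd hct
    (fun n => Pool.Agent.K4H30.FNA.isUnit_T hg n)
    (fun n k hk => Pool.Agent.K4H30.FNA.trace1 hg n k hk)
    (fun n k l hk hl => Pool.Agent.K4H30.FNA.trace2 hg n k l hk hl) hN hk hl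
  refine ⟨(hpd N).isUnit, this.1.trans (by norm_num), this.2.trans (by norm_num)⟩

end Pool.Agent.K4H25.FH
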