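import Pool.Agent.K4H25.FH.Spec

/-!
Reduction to the differences: linear algebra.
-/

set_option autoImplicit false

namespace Pool.Agent.K4H25.FH

open Finset Matrix

theorem quad1 {N : ℕ} {S T : Matrix (Fin N) (Fin N) ℝ}
    (hT : ∀ a b : Fin N → ℝ, 0 ≤ a ⬝ᵥ S *ᵥ a + 2 * (a ⬝ᵥ T *ᵥ b) + b ⬝ᵥ S *ᵥ b) (u : Fin N → ℝ) :
    |u ⬝ᵥ T *ᵥ u| ≤ u ⬝ᵥ S *ᵥ u := by
  have h1 := hT u u
  have h2 := hT (-u) u
  simp only [mulVec_neg, neg_dotProduct, dotProduct_neg, neg_neg] at h2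
  rw [abs_le]
  constructor <;> linarith

theorem quad2 {N : ℕ} {S T : Matrix (Fin N) (Fin N) ℝ} (hS : S.PosDef)
    (hT : ∀ a b : Fin N → ℝ, 0 ≤ a ⬝ᵥ S *ᵥ a + 2 * (a ⬝ᵥ T *ᵥ b) + b ⬝ᵥ S *ᵥ b) (u : Fin N → ℝ) :
    (T *ᵥ u) ⬝ᵥ S⁻¹ *ᵥ (T *ᵥ u) ≤ u ⬝ᵥ S *ᵥ u := by
  have hu := hS.isUnit
  have hdet := (Matrix.isUnit_iff_isUnit_det _).1 hu
  have h1 := hT (-(S⁻¹ *ᵥ (T *ᵥ u))) u
  have h2 : S *ᵥ (S⁻¹ *ᵥ (T *ᵥ u)) = T *ᵥ u := by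
    rw [mulVec_mulVec, Matrix.mul_nonsing_inv _ hdet, one_mulVec]
  simp only [mulVec_neg, neg_dotProduct, dotProduct_neg, neg_neg, h2] at h1
  have h3 : (S⁻¹ *ᵥ (T *ᵥ u)) ⬝ᵥ (T *ᵥ u) = (T *ᵥ u) ⬝ᵥ S⁻¹ *ᵥ (T *ᵥ u) := dotProduct_comm _ _
  rw [h3] at h1
  linarith

theorem quad2' {N : ℕ} {S T : Matrix (Fin N) (Fin N) ℝ} (hS : S.PosDef)
    (hT : ∀ a b : Fin N → ℝ, 0 ≤ a ⬝ᵥ S *ᵥ a + 2 * (a ⬝ᵥ T *ᵥ b) + b ⬝ᵥ S *ᵥ b) (u : Fin N → ℝ) :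
    (Tᵀ *ᵥ u) ⬝ᵥ S⁻¹ *ᵥ (Tᵀ *ᵥ u) ≤ u ⬝ᵥ S *ᵥ u := by
  refine quad2 hS (fun a b => ?_) u
  have h1 := hT b a
  have h2 : b ⬝ᵥ T *ᵥ a = a ⬝ᵥ Tᵀ *ᵥ b := by
    rw [dotProduct_mulVec, ← mulVec_transpose, dotProduct_comm]
  rw [h2] at h1
  linarith

theorem quad3 {N : ℕ} {S T T' : Matrix (Fin N) (Fin N) ℝ} (hS : S.PosDef)
    (hT : ∀ a b : Fin N → ℝ, 0 ≤ a ⬝ᵥ S *ᵥ a + 2 * (a ⬝ᵥ T *ᵥ b) + b ⬝ᵥ S *ᵥ b)
    (hT' : ∀ a b : Fin N → ℝ, 0 ≤ a ⬝ᵥ S *ᵥ a + 2 * (a ⬝ᵥ T' *ᵥ b) + b ⬝ᵥ S *ᵥ b)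
    (u : Fin N → ℝ) :
    |u ⬝ᵥ (T * S⁻¹ * T') *ᵥ u| ≤ u ⬝ᵥ S *ᵥ u := by
  have h1 := quad2' hS hT u
  have h2 := quad2 hS hT' u
  have hinv : (S⁻¹).PosDef := hS.inv
  have hpos : ∀ x : Fin N → ℝ, 0 ≤ x ⬝ᵥ S⁻¹ *ᵥ x := by
    intro x
    have := hinv.posSemidef.dotProduct_mulVec_nonneg x
    simpa using this
  have hsymm : ∀ x y : Fin N → ℝ, x ⬝ᵥ S⁻¹ *ᵥ y = y ⬝ᵥ S⁻¹ *ᵥ x := by
    intro x y
    have ht : (S⁻¹)ᵀ = S⁻¹ := by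
      have := hinv.isHermitian.eq
      rwa [conjTranspose_eq_transpose_of_trivial] at this
    rw [dotProduct_mulVec, ← mulVec_transpose, ht, dotProduct_comm]
  set x := Tᵀ *ᵥ u with hx
  set y := T' *ᵥ u with hy
  have h3 : u ⬝ᵥ (T * S⁻¹ * T') *ᵥ u = x ⬝ᵥ S⁻¹ *ᵥ y := by
    rw [hx, hy, ← mulVec_mulVec, ← mulVec_mulVec, dotProduct_mulVec, ← mulVec_transpose]
  have h4 := hpos (x + y)
  have h5 := hpos (x - y)
  simp only [mulVec_add, mulVec_sub, add_dotProduct, dotProduct_add, sub_dotProduct,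
    dotProduct_sub] at h4 h5
  rw [hsymm y x] at h4 h5
  rw [h3, abs_le]
  constructor <;> linarith

/-- differences of the basis vectors -/
def Dl (n : ℕ) : Matrix (Fin (n + 1)) (Fin n) ℝ :=
  Matrix.of fun i j => (if i = j.succ then 1 else 0) - (if i = j.castSucc then 1 else 0)

theorem mul_Dl {n : ℕ} {α : Type} (M : Matrix α (Fin (n + 1)) ℝ) (a : α) (j : Fin n) :
    (M * Dl n) a j = M a j.succ - M a j.castSucc := by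
  rw [Matrix.mul_apply]
  simp only [Dl, Matrix.of_apply, mul_sub, sum_sub_distrib, mul_ite, mul_one, mul_zero,
    Finset.sum_ite_eq', Finset.sum_ite_eq, Finset.mem_univ, if_true]

theorem Dl_mul {n : ℕ} {α : Type} (M : Matrix (Fin (n + 1)) α ℝ) (j : Fin n) (a : α) :
    ((Dl n)ᵀ * M) j a = M j.succ a - M j.castSucc a := by
  rw [Matrix.mul_apply]
  simp only [Dl, Matrix.transpose_apply, Matrix.of_apply, sub_mul, sum_sub_distrib, ite_mul,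
    one_mul, zero_mul, Finset.sum_ite_eq', Finset.sum_ite_eq, Finset.mem_univ, if_true]

theorem Dl_Sh (H : ℝ) (n k : ℕ) : (Dl n)ᵀ * Sh (gam H) (n + 1) k * Dl n = Sh (dlt H) n k := by
  ext i j
  rw [mul_Dl, Dl_mul, Dl_mul]
  simp only [Sh, Matrix.of_apply, dlt, Fin.val_succ, Fin.val_castSucc]
  have e1 : (((i : ℕ) + 1 : ℕ) : ℤ) - (((j : ℕ) + 1 : ℕ) : ℤ) + (k : ℤ) =
      ((i : ℕ) : ℤ) - ((j : ℕ) : ℤ) + k := by
    push_cast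
    ring
  have e2 : (((i : ℕ) + 1 : ℕ) : ℤ) - ((j : ℕ) : ℤ) + (k : ℤ) =
      ((i : ℕ) : ℤ) - ((j : ℕ) : ℤ) + k + 1 := by
    push_cast
    ring
  have e3 : ((i : ℕ) : ℤ) - (((j : ℕ) + 1 : ℕ) : ℤ) + (k : ℤ) =
      ((i : ℕ) : ℤ) - ((j : ℕ) : ℤ) + k - 1 := by
    push_cast
    ring
  rw [e1, e2, e3]
  ring

theorem Sg_eq_Sh (g : ℤ → ℝ) (n : ℕ) : Sg g n = Sh g n 0 := by
  ext i j
  simp [Sg, Sh]

/-- the inverse covariance matrix -/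
theorem inv_eq {n : ℕ} {S : Matrix (Fin (n + 1)) (Fin (n + 1)) ℝ} (hS : S.PosDef)
    (hZ : IsUnit ((Dl n)ᵀ * S * Dl n)) {u : Fin (n + 1) → ℝ} (hu : S *ᵥ u = fun _ => 1)
    {c : ℝ} (hc : c = u ⬝ᵥ S *ᵥ u) (hc0 : 0 < c) :
    S⁻¹ = Dl n * ((Dl n)ᵀ * S * Dl n)⁻¹ * (Dl n)ᵀ + c⁻¹ • Matrix.vecMulVec u u := by
  set Z := (Dl n)ᵀ * S * Dl n with hZd
  have hdet := (Matrix.isUnit_iff_isUnit_det _).1 hS.isUnit
  have hZdet := (Matrix.isUnit_iff_isUnit_det _).1 hZ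
  have hST : Sᵀ = S := by
    have := hS.isHermitian.eq
    rwa [conjTranspose_eq_transpose_of_trivial] at this
  have h1D : (Dl n)ᵀ *ᵥ (S *ᵥ u) = 0 := by
    rw [hu]
    ext j
    have := Dl_mul (Matrix.of fun (_ : Fin (n + 1)) (_ : Unit) => (1 : ℝ)) j ()
    rw [Matrix.mul_apply] at this
    simpa [mulVec, dotProduct] using this
  have hcu : ∑ i, u i = c := by
    rw [hc, hu]
    simp [dotProduct]
  set E := S⁻¹ - (Dl n * Z⁻¹ * (Dl n)ᵀ + c⁻¹ • Matrix.vecMulVec u u) with hE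
  have hM1 : (Dl n)ᵀ * (S * E) = 0 := by
    rw [hE, Matrix.mul_sub, Matrix.mul_add, Matrix.mul_nonsing_inv _ hdet, Matrix.mul_sub,
      Matrix.mul_add, Matrix.mul_one]
    have e1 : (Dl n)ᵀ * (S * (Dl n * Z⁻¹ * (Dl n)ᵀ)) = (Dl n)ᵀ := by
      have : (Dl n)ᵀ * (S * (Dl n * Z⁻¹ * (Dl n)ᵀ)) = Z * Z⁻¹ * (Dl n)ᵀ := by
        rw [hZd]
        simp only [Matrix.mul_assoc]
      rw [this, Matrix.mul_nonsing_inv _ hZdet, Matrix.one_mul]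
    have e2 : (Dl n)ᵀ * (S * (c⁻¹ • Matrix.vecMulVec u u)) = 0 := by
      rw [Matrix.mul_smul, Matrix.mul_smul, Matrix.mul_vecMulVec, Matrix.mul_vecMulVec, h1D]
      simp
    rw [e1, e2]
    simp
  have hM2 : u ᵥ* (S * E) = 0 := by
    rw [← vecMul_vecMul]
    have e0 : u ᵥ* S = fun _ => 1 := by
      rw [← mulVec_transpose, hST, hu]
    rw [e0, hE, Matrix.vecMul_sub, Matrix.vecMul_add]
    have e1 : (fun _ => (1 : ℝ)) ᵥ* S⁻¹ = u := by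
      rw [← e0, vecMul_vecMul, Matrix.mul_nonsing_inv _ hdet, vecMul_one]
    have e2 : (fun _ => (1 : ℝ)) ᵥ* (Dl n * Z⁻¹ * (Dl n)ᵀ) = 0 := by
      rw [← vecMul_vecMul, ← vecMul_vecMul]
      have : (fun _ => (1 : ℝ)) ᵥ* Dl n = 0 := by
        rw [← mulVec_transpose, ← hu, h1D]
      rw [this, zero_vecMul, zero_vecMul]
    have e3 : (fun _ => (1 : ℝ)) ᵥ* (c⁻¹ • Matrix.vecMulVec u u) = u := by
      rw [vecMul_smul, vecMul_vecMulVec]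
      have : (fun _ => (1 : ℝ)) ⬝ᵥ u = c := by
        rw [← hcu]
        simp [dotProduct]
      rw [this, smul_smul, inv_mul_cancel₀ hc0.ne', one_smul]
    rw [e1, e2, e3]
    simp
  have hconst : ∀ (b : Fin (n + 1)) (i : Fin (n + 1)), (S * E) i b = (S * E) 0 b := by
    intro b i
    induction i using Fin.induction with
    | zero => rfl
    | succ j ih =>
      have := Dl_mul (S * E) j b
      rw [hM1] at this
      rw [← ih]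
      have h0 : (0 : Matrix (Fin n) (Fin (n + 1)) ℝ) j b = 0 := rfl
      rw [h0] at this
      linarith
  have hSE : S * E = 0 := by
    ext i b
    rw [hconst b i]
    have h2 : (u ᵥ* (S * E)) b = 0 := by
      rw [hM2]
      rfl
    have h3 : (u ᵥ* (S * E)) b = c * (S * E) 0 b := by
      rw [← hcu, sum_mul]
      simp only [vecMul, dotProduct]
      exact sum_congr rfl fun i _ => by rw [hconst b i]
    rw [h3] at h2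
    rcases mul_eq_zero.1 h2 with h4 | h4
    · exact absurd h4 hc0.ne'
    · exact h4
  have hE0 : E = 0 := by
    have : S⁻¹ * (S * E) = E := by
      rw [← Matrix.mul_assoc, Matrix.nonsing_inv_mul _ hdet, Matrix.one_mul]
    rw [← this, hSE, Matrix.mul_zero]
  have := sub_eq_zero.1 (hE.symm.trans hE0)
  exact this

end Pool.Agent.K4H25.FH
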