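import Pool.Agent.K4H25.FH.Red

/-!
Reduction to the differences: the traces.
-/

set_option autoImplicit false

namespace Pool.Agent.K4H25.FH

open Finset Matrix

theorem tr_vv {N : ℕ} (u : Fin N → ℝ) (M : Matrix (Fin N) (Fin N) ℝ) :
    (Matrix.vecMulVec u u * M).trace = u ⬝ᵥ M *ᵥ u := by
  rw [Matrix.trace_mul_comm, Matrix.mul_vecMulVec, Matrix.trace_vecMulVec, dotProduct_comm]

theorem tr_vv' {N : ℕ} (u : Fin N → ℝ) (M M' : Matrix (Fin N) (Fin N) ℝ) :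
    (M * Matrix.vecMulVec u u * M').trace = u ⬝ᵥ (M' * M) *ᵥ u := by
  rw [Matrix.mul_assoc, Matrix.trace_mul_comm, Matrix.mul_assoc, tr_vv]

theorem vv_mul_vv {N : ℕ} (u : Fin N → ℝ) (K : Matrix (Fin N) (Fin N) ℝ) :
    Matrix.vecMulVec u u * K * Matrix.vecMulVec u u = (u ⬝ᵥ K *ᵥ u) • Matrix.vecMulVec u u := by
  rw [Matrix.mul_assoc, Matrix.mul_vecMulVec, Matrix.vecMulVec_mul_vecMulVec]
  ext i j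
  simp [Matrix.vecMulVec_apply]
  ring

/-- the reduction -/
theorem red {n : ℕ} {S K L : Matrix (Fin (n + 1)) (Fin (n + 1)) ℝ} (hS : S.PosDef)
    (hZ : IsUnit ((Dl n)ᵀ * S * Dl n))
    (hK : ∀ a b : Fin (n + 1) → ℝ, 0 ≤ a ⬝ᵥ S *ᵥ a + 2 * (a ⬝ᵥ K *ᵥ b) + b ⬝ᵥ S *ᵥ b)
    (hL : ∀ a b : Fin (n + 1) → ℝ, 0 ≤ a ⬝ᵥ S *ᵥ a + 2 * (a ⬝ᵥ L *ᵥ b) + b ⬝ᵥ S *ᵥ b) :
    |(S⁻¹ * K).trace - (((Dl n)ᵀ * S * Dl n)⁻¹ * ((Dl n)ᵀ * K * Dl n)).trace| ≤ 1 ∧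
    |(S⁻¹ * K * (S⁻¹ * L)).trace - (((Dl n)ᵀ * S * Dl n)⁻¹ * ((Dl n)ᵀ * K * Dl n) *
      (((Dl n)ᵀ * S * Dl n)⁻¹ * ((Dl n)ᵀ * L * Dl n))).trace| ≤ 3 := by
  have hdet := (Matrix.isUnit_iff_isUnit_det _).1 hS.isUnit
  obtain ⟨u, hu⟩ : ∃ u : Fin (n + 1) → ℝ, S *ᵥ u = fun _ => 1 := ⟨S⁻¹ *ᵥ fun _ => 1, by
    rw [mulVec_mulVec, Matrix.mul_nonsing_inv _ hdet, one_mulVec]⟩
  have hu0 : u ≠ 0 := by
    rintro rfl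
    have := congrFun hu 0
    rw [mulVec_zero] at this
    exact zero_ne_one this
  obtain ⟨c, hc⟩ : ∃ c : ℝ, c = u ⬝ᵥ S *ᵥ u := ⟨_, rfl⟩
  have hc0 : 0 < c := by
    rw [hc]
    have := hS.dotProduct_mulVec_pos hu0
    simpa using this
  have hinv := inv_eq hS hZ hu hc hc0
  obtain ⟨Z, hZd⟩ : ∃ Z, Z = (Dl n)ᵀ * S * Dl n := ⟨_, rfl⟩
  rw [← hZd] at hinv ⊢
  obtain ⟨R, hR⟩ : ∃ R, R = Dl n * Z⁻¹ * (Dl n)ᵀ := ⟨_, rfl⟩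
  have hR2 : R = S⁻¹ - c⁻¹ • Matrix.vecMulVec u u := by
    rw [hR, hinv]
    simp
  have e1 : (Z⁻¹ * ((Dl n)ᵀ * K * Dl n)).trace = (R * K).trace := by
    rw [hR, ← Matrix.mul_assoc, Matrix.trace_mul_comm]
    simp only [Matrix.mul_assoc]
  have e2 : (Z⁻¹ * ((Dl n)ᵀ * K * Dl n) * (Z⁻¹ * ((Dl n)ᵀ * L * Dl n))).trace =
      (R * K * (R * L)).trace := by
    have : Z⁻¹ * ((Dl n)ᵀ * K * Dl n) * (Z⁻¹ * ((Dl n)ᵀ * L * Dl n)) =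
        (Z⁻¹ * ((Dl n)ᵀ * K * Dl n) * (Z⁻¹ * ((Dl n)ᵀ * L))) * Dl n := by
      simp only [Matrix.mul_assoc]
    rw [this, Matrix.trace_mul_comm, hR]
    simp only [Matrix.mul_assoc]
  have q1 := quad1 hK u
  have q2 := quad1 hL u
  have q3 := quad3 hS hK hL u
  have q4 := quad3 hS hL hK u
  rw [← hc] at q1 q2 q3 q4
  rw [e1, e2, hR2]
  have t1 : ((S⁻¹ - c⁻¹ • Matrix.vecMulVec u u) * K).trace =
      (S⁻¹ * K).trace - c⁻¹ * (u ⬝ᵥ K *ᵥ u) := by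
    rw [Matrix.sub_mul, Matrix.trace_sub, Matrix.smul_mul, Matrix.trace_smul, tr_vv, smul_eq_mul]
  have t2 : ((S⁻¹ - c⁻¹ • Matrix.vecMulVec u u) * K *
      ((S⁻¹ - c⁻¹ • Matrix.vecMulVec u u) * L)).trace = (S⁻¹ * K * (S⁻¹ * L)).trace -
      c⁻¹ * (u ⬝ᵥ (K * S⁻¹ * L) *ᵥ u) - c⁻¹ * (u ⬝ᵥ (L * S⁻¹ * K) *ᵥ u) +
      c⁻¹ * c⁻¹ * ((u ⬝ᵥ K *ᵥ u) * (u ⬝ᵥ L *ᵥ u)) := by
    have expand : (S⁻¹ - c⁻¹ • Matrix.vecMulVec u u) * K *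
        ((S⁻¹ - c⁻¹ • Matrix.vecMulVec u u) * L) = S⁻¹ * K * (S⁻¹ * L) -
        c⁻¹ • (Matrix.vecMulVec u u * (K * S⁻¹ * L)) -
        c⁻¹ • ((S⁻¹ * K) * Matrix.vecMulVec u u * L) +
        (c⁻¹ * c⁻¹) • ((Matrix.vecMulVec u u * K * Matrix.vecMulVec u u) * L) := by
      simp only [Matrix.sub_mul, Matrix.mul_sub, Matrix.smul_mul, Matrix.mul_smul,
        Matrix.mul_assoc, smul_sub, smul_smul]
      abel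
    rw [expand, Matrix.trace_add, Matrix.trace_sub, Matrix.trace_sub, Matrix.trace_smul,
      Matrix.trace_smul, Matrix.trace_smul, tr_vv, tr_vv', vv_mul_vv, Matrix.smul_mul,
      Matrix.trace_smul, tr_vv]
    simp only [smul_eq_mul, Matrix.mul_assoc]
  rw [t1, t2]
  have hcc : c⁻¹ * c = 1 := inv_mul_cancel₀ hc0.ne'
  have hci : 0 < c⁻¹ := inv_pos.2 hc0
  have b : ∀ x : ℝ, |x| ≤ c → |c⁻¹ * x| ≤ 1 := by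
    intro x hx
    rw [abs_mul, abs_of_pos hci]
    calc c⁻¹ * |x| ≤ c⁻¹ * c := mul_le_mul_of_nonneg_left hx hci.le
      _ = 1 := hcc
  have b1 := b _ q1
  have b2 := b _ q2
  have b3 := b _ q3
  have b4 := b _ q4
  constructor
  · rw [sub_sub_cancel]
    exact b1
  · have b5 : |c⁻¹ * c⁻¹ * ((u ⬝ᵥ K *ᵥ u) * (u ⬝ᵥ L *ᵥ u))| ≤ 1 := by
      have : c⁻¹ * c⁻¹ * ((u ⬝ᵥ K *ᵥ u) * (u ⬝ᵥ L *ᵥ u)) =
          (c⁻¹ * (u ⬝ᵥ K *ᵥ u)) * (c⁻¹ * (u ⬝ᵥ L *ᵥ u)) := by ring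
      rw [this, abs_mul]
      exact mul_le_one₀ b1 (abs_nonneg _) b2
    rw [abs_le] at b3 b4 b5 ⊢
    constructor <;> linarith [b3.1, b3.2, b4.1, b4.2, b5.1, b5.2]

end Pool.Agent.K4H25.FH
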